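import Pool.Agent.H46.SQ.Targets
import Pool.Agent.H75.PS.Selberg
import Pool.Agent.H75.PS.Lower

/-!
The sieve bound for primes `n` with `n ^ 2 - 2` prime.
-/

set_option autoImplicit false

open Finset ArithmeticFunction

namespace Pool.Agent.H54.SR

open BoundingSieve Pool.Agent.H46.SQ Pool.Agent.H75.PS

private theorem P_sqf (R : ℕ) : Squarefree (∏ p ∈ Nat.primesLE R, p) := by
  have h : ∀ S : Finset ℕ, (∀ p ∈ S, p.Prime) → Squarefree (∏ p ∈ S, p) := by
    intro S
    induction S using Finset.induction_on with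
    | empty => intro _; simp
    | insert p S hp ih =>
      intro h
      rw [Finset.prod_insert hp]
      rw [Nat.squarefree_mul_iff]
      refine ⟨?_, (h p (Finset.mem_insert_self p S)).squarefree,
        ih (fun q hq => h q (Finset.mem_insert_of_mem hq))⟩
      apply Nat.Coprime.prod_right
      intro q hq
      exact (Nat.coprime_primes (h p (Finset.mem_insert_self p S))
        (h q (Finset.mem_insert_of_mem hq))).mpr (fun hpq => hp (hpq ▸ hq))
  exact h _ (fun p hp => (Nat.mem_primesLE.mp hp).2)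

private theorem prime_dvd_P {R p : ℕ} (hp : p.Prime) :
    p ∣ ∏ p ∈ Nat.primesLE R, p ↔ p ∈ Nat.primesLE R := by
  constructor
  · intro h
    obtain ⟨q, hq, hpq⟩ := (Prime.dvd_finsetProd_iff hp.prime _).mp h
    have := (Nat.prime_dvd_prime_iff_eq hp (Nat.mem_primesLE.mp hq).2).mp hpq
    rwa [this]
  · intro h
    exact Finset.dvd_prod_of_mem _ h

private theorem primeFactors_P (R : ℕ) :
    (∏ p ∈ Nat.primesLE R, p).primeFactors = Nat.primesLE R :=
  Nat.primeFactors_prod (fun p hp => (Nat.mem_primesLE.mp hp).2)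

/-- The value map. -/
private def val (n : ℕ) : ℕ := n * (n ^ 2 - 2)

private theorem val_cast {n : ℕ} (hn : 2 ≤ n) : ((val n : ℕ) : ℤ) = (n : ℤ) * ((n : ℤ) ^ 2 - 2) := by
  unfold val
  have h : 2 ≤ n ^ 2 := by nlinarith
  push_cast [Nat.cast_sub h]
  ring

private theorem val_injOn (a N : ℕ) (ha : 2 ≤ a) :
    Set.InjOn val ((Finset.Ico a (a + N) : Finset ℕ) : Set ℕ) := by
  have h : ∀ m n : ℕ, 2 ≤ m → m < n → val m < val n := by
    intro m n hm hmn
    have h1 := val_cast hm
    have h2 := val_cast (hm.trans hmn.le)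
    have h3 : ((val m : ℕ) : ℤ) < ((val n : ℕ) : ℤ) := by
      rw [h1, h2]
      have h4 : (m : ℤ) + 1 ≤ n := by exact_mod_cast hmn
      have h5 : (2 : ℤ) ≤ m := by exact_mod_cast hm
      have h6 : (m : ℤ) ^ 2 < (n : ℤ) ^ 2 := by nlinarith
      nlinarith
    exact_mod_cast h3
  intro x hx y hy hxy
  simp only [Finset.coe_Ico, Set.mem_Ico] at hx hy
  rcases lt_trichotomy x y with h1 | h1 | h1
  · exact absurd hxy (h x y (ha.trans hx.1) h1).ne
  · exact h1
  · exact absurd hxy (h y x (ha.trans hy.1) h1).ne'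

/-- The density function. -/
private noncomputable def nuR : ArithmeticFunction ℝ := ⟨fun d => (rho d : ℝ) / d, by simp⟩

private theorem nuR_apply (d : ℕ) : nuR d = (rho d : ℝ) / d := rfl

private theorem nuR_mult (hMUL : T_MUL) : nuR.IsMultiplicative := by
  constructor
  · rw [nuR_apply]
    have : rho 1 = 1 := by
      unfold rho
      simp
    rw [this]
    simp
  · intro m n hmn
    rw [nuR_apply, nuR_apply, nuR_apply]
    rcases Nat.eq_zero_or_pos m with hm | hm
    · subst hm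
      simp
    rcases Nat.eq_zero_or_pos n with hn | hn
    · subst hn
      simp
    rw [hMUL m n hm hn hmn]
    push_cast
    rw [mul_div_mul_comm]

private theorem rho_pos {d : ℕ} (hd : 0 < d) : 1 ≤ rho d := by
  unfold rho
  rw [Nat.one_le_iff_ne_zero, ← Nat.pos_iff_ne_zero, Finset.card_pos]
  refine ⟨0, ?_⟩
  rw [Finset.mem_filter, Finset.mem_range]
  exact ⟨hd, by simp⟩

/-- The sieve problem. -/
private noncomputable def sv (hMUL : T_MUL) (hRHO : T_RHO) (a N R : ℕ) : BoundingSieve where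
  support := (Finset.Ico a (a + N)).image val
  prodPrimes := ∏ p ∈ Nat.primesLE R, p
  prodPrimes_squarefree := P_sqf R
  weights := fun _ => 1
  weights_nonneg := fun _ => zero_le_one
  totalMass := N
  nu := nuR
  nu_mult := nuR_mult hMUL
  nu_pos_of_prime := by
    intro p hp _
    rw [nuR_apply]
    have h1 : (0 : ℝ) < p := by exact_mod_cast hp.pos
    have h2 : (0 : ℝ) < rho p := by exact_mod_cast (hRHO.2.2 p hp).1
    positivity
  nu_lt_one_of_prime := by
    intro p hp _
    rw [nuR_apply]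
    have h1 : (0 : ℝ) < p := by exact_mod_cast hp.pos
    rw [div_lt_one h1]
    exact_mod_cast (hRHO.2.2 p hp).2

private theorem sv_multSum (hMUL : T_MUL) (hRHO : T_RHO) (a N R : ℕ) (ha : 2 ≤ a) (d : ℕ) :
    (sv hMUL hRHO a N R).multSum d =
      (((Finset.Ico a (a + N)).filter
        (fun n : ℕ => (d : ℤ) ∣ (n : ℤ) * ((n : ℤ) ^ 2 - 2))).card : ℝ) := by
  unfold multSum sv
  simp only
  rw [Finset.sum_image (val_injOn a N ha), Finset.card_filter]
  push_cast
  refine Finset.sum_congr rfl fun n hn => ?_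
  rw [Finset.mem_Ico] at hn
  have h1 : (d ∣ val n) ↔ ((d : ℤ) ∣ (n : ℤ) * ((n : ℤ) ^ 2 - 2)) := by
    rw [← val_cast (ha.trans hn.1)]
    exact Int.natCast_dvd_natCast.symm
  simp only [h1]

private theorem sv_rem (hMUL : T_MUL) (hCNT : T_CNT) (hRHO : T_RHO) (a N R : ℕ) (ha : 2 ≤ a)
    (d : ℕ) (hd : d ∣ ∏ p ∈ Nat.primesLE R, p) : |(sv hMUL hRHO a N R).rem d| ≤ d := by
  have hd0 : 0 < d := Nat.pos_of_ne_zero ((P_sqf R).squarefree_of_dvd hd).ne_zero
  have h := hCNT a N d hd0
  unfold rem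
  rw [sv_multSum hMUL hRHO a N R ha]
  exact h

private theorem sv_sifted (hMUL : T_MUL) (hRHO : T_RHO) (a N R : ℕ) (ha : 2 ≤ a) (hR : R < a) :
    ((((Finset.Ico a (a + N)).filter (fun n => n.Prime ∧ (n ^ 2 - 2).Prime)).card : ℝ)) ≤
      (sv hMUL hRHO a N R).siftedSum := by
  unfold siftedSum sv
  simp only
  rw [Finset.sum_image (val_injOn a N ha), Finset.card_filter]
  push_cast
  apply Finset.sum_le_sum
  intro n hn
  rw [Finset.mem_Ico] at hn
  split_ifs with h1 h2
  · exact le_rfl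
  · exfalso
    apply h2
    apply Nat.Coprime.prod_left
    intro p hp
    have hp' := Nat.mem_primesLE.mp hp
    have hn2 : n ≤ n ^ 2 - 2 := by
      have h3 : 2 ≤ n := ha.trans hn.1
      have h4 : n + 2 ≤ n ^ 2 := by nlinarith
      omega
    unfold val
    apply Nat.Coprime.mul_right
    · exact (Nat.coprime_primes hp'.2 h1.1).mpr (by omega)
    · exact (Nat.coprime_primes hp'.2 h1.2).mpr (by omega)
  · exact zero_le_one
  · exact le_rfl

private theorem geo {x : ℝ} (hx0 : 0 ≤ x) (hx1 : x < 1) (K : ℕ) :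
    ∑ k ∈ Finset.Icc 1 K, x ^ k ≤ x * (1 - x)⁻¹ := by
  have h1 : 0 < 1 - x := by linarith
  have h : ∑ k ∈ Finset.Icc 1 K, x ^ k = (x - x ^ (K + 1)) * (1 - x)⁻¹ := by
    induction K with
    | zero => simp
    | succ K ih =>
      rw [Finset.sum_Icc_succ_top (by omega), ih]
      field_simp
      ring
  rw [h]
  apply mul_le_mul_of_nonneg_right _ (inv_nonneg.2 h1.le)
  have : 0 ≤ x ^ (K + 1) := pow_nonneg hx0 _
  linarith

private theorem SS_low (hMUL : T_MUL) (hRHO : T_RHO) (hSM : T_SM) (hLOW : T_LOW) (a N z : ℕ) :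
    (7 / 60 : ℝ) * (Real.log (z + 1)) ^ 2 ≤ SS (sv hMUL hRHO a N (z * z)) (z * z) := by
  classical
  set s := sv hMUL hRHO a N (z * z) with hs
  have hprod : s.prodPrimes = ∏ p ∈ Nat.primesLE (z * z), p := rfl
  have hSS : FF (fun p => s.selbergTerms p) (Nat.primesLE (z * z)) (z * z) ≤ SS s (z * z) := by
    unfold FF SS
    have hinj : Set.InjOn (fun A : Finset ℕ => ∏ p ∈ A, p)
        (((Nat.primesLE (z * z)).powerset.filter (fun A => ∏ p ∈ A, p ≤ z * z) :
          Finset (Finset ℕ)) : Set (Finset ℕ)) := by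
      intro A hA B hB hAB
      simp only [Finset.coe_filter, Finset.mem_powerset, Set.mem_setOf_eq] at hA hB
      have h1 : (∏ p ∈ A, p).primeFactors = A :=
        Nat.primeFactors_prod (fun p hp => (Nat.mem_primesLE.mp (hA.1 hp)).2)
      have h2 : (∏ p ∈ B, p).primeFactors = B :=
        Nat.primeFactors_prod (fun p hp => (Nat.mem_primesLE.mp (hB.1 hp)).2)
      simp only at hAB
      rw [← h1, ← h2, hAB]
    have h3 : ∀ A ∈ (Nat.primesLE (z * z)).powerset.filter (fun A => ∏ p ∈ A, p ≤ z * z),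
        ∏ p ∈ A, s.selbergTerms p = s.selbergTerms (∏ p ∈ A, p) := by
      intro A hA
      rw [Finset.mem_filter, Finset.mem_powerset] at hA
      symm
      apply selbergTerms_isMultiplicative.map_prod_of_subset_primeFactors s.prodPrimes
      rw [hprod, primeFactors_P]
      exact hA.1
    rw [Finset.sum_congr rfl h3]
    rw [← Finset.sum_image (f := fun l => s.selbergTerms l) hinj]
    apply Finset.sum_le_sum_of_subset_of_nonneg
    · intro l hl
      rw [Finset.mem_image] at hl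
      obtain ⟨A, hA, rfl⟩ := hl
      rw [Finset.mem_filter, Finset.mem_powerset] at hA
      rw [Finset.mem_filter, Nat.mem_divisors]
      refine ⟨⟨?_, prodPrimes_ne_zero⟩, hA.2⟩
      rw [hprod]
      exact Finset.prod_dvd_prod_of_subset _ _ _ hA.1
    · intro l hl _
      rw [Finset.mem_filter, Nat.mem_divisors] at hl
      exact (selbergTerms_pos hl.1.1).le
  refine (hLOW z).trans (le_trans (hSM (fun p => (rho p : ℝ)) (fun p => s.selbergTerms p) (z * z)
    (fun p => Nat.cast_nonneg _) ?_) hSS)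
  intro p hp K
  have hpp := (Nat.mem_primesLE.mp hp).2
  have h1 : (0 : ℝ) < p := by exact_mod_cast hpp.pos
  have h5 : s.nu p = (rho p : ℝ) / p := rfl
  have h6 : s.selbergTerms p = (rho p : ℝ) / p * (1 - (rho p : ℝ) / p)⁻¹ := by
    rw [selbergTerms_apply, hpp.primeFactors, Finset.prod_singleton, h5]
  rw [h6]
  refine geo (by positivity) ?_ K
  rw [div_lt_one h1]
  exact_mod_cast (hRHO.2.2 p hpp).2

theorem sr_SIEVE (hMUL : T_MUL) (hCNT : T_CNT) (hRHO : T_RHO) (hSM : T_SM) (hLOW : T_LOW) :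
    T_SIEVE := by
  intro a N z hz hza
  have hR : 1 ≤ z * z := Nat.mul_pos hz hz
  have ha : 2 ≤ a := by omega
  have h1 := sv_sifted hMUL hRHO a N (z * z) ha hza
  have h2 := selberg_bound (sv hMUL hRHO a N (z * z)) (z * z) hR
  have h3 := SS_low hMUL hRHO hSM hLOW a N z
  set s := sv hMUL hRHO a N (z * z) with hs
  have hS := SS_pos s (z * z) hR
  have hzpos : (0:ℝ) < z := by exact_mod_cast hz
  have hlog : 0 < Real.log (z + 1) := Real.log_pos (by linarith)
  have hmass : s.totalMass = N := rfl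
  have hprod : s.prodPrimes = ∏ p ∈ Nat.primesLE (z * z), p := rfl
  have hnu : ∀ d, s.nu d = (rho d : ℝ) / d := fun d => rfl
  have hinv : ∀ d : ℕ, 0 < d → (s.nu d)⁻¹ ≤ d := by
    intro d hd
    have hd0 : (0:ℝ) < d := by exact_mod_cast hd
    rw [hnu, inv_div]
    have h1 : (1:ℝ) ≤ rho d := by exact_mod_cast rho_pos hd
    rw [div_le_iff₀ (by linarith)]
    nlinarith
  refine h1.trans (h2.trans ?_)
  apply add_le_add
  · rw [hmass]
    generalize SS s (z * z) = S at *
    generalize Real.log (z + 1) = L at *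
    have hL2 : 0 < L ^ 2 := pow_pos hlog 2
    have hNn : (0:ℝ) ≤ N := Nat.cast_nonneg N
    rw [le_div_iff₀ hL2]
    calc (N : ℝ) * S⁻¹ * L ^ 2
        ≤ (N : ℝ) * S⁻¹ * (60 / 7 * S) := by
          apply mul_le_mul_of_nonneg_left _ (mul_nonneg hNn (inv_nonneg.mpr hS.le))
          linarith
      _ = 60 / 7 * N := by field_simp
      _ ≤ 9 * N := by linarith
  · have hcard : ((s.prodPrimes.divisors.filter (fun d => d ≤ z * z)).card : ℝ) ≤ (z:ℝ) ^ 2 := by
      have : s.prodPrimes.divisors.filter (fun d => d ≤ z * z) ⊆ Finset.Icc 1 (z * z) := by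
        intro d hd
        rw [Finset.mem_filter, Nat.mem_divisors] at hd
        rw [Finset.mem_Icc]
        exact ⟨Nat.pos_of_dvd_of_pos hd.1.1 (Nat.pos_of_ne_zero hd.1.2), hd.2⟩
      have h4 := Finset.card_le_card this
      rw [Nat.card_Icc] at h4
      have h5 : ((s.prodPrimes.divisors.filter (fun d => d ≤ z * z)).card : ℝ) ≤
          ((z * z : ℕ) : ℝ) := by exact_mod_cast h4
      calc _ ≤ ((z * z : ℕ) : ℝ) := h5
        _ = (z:ℝ) ^ 2 := by push_cast; ring
    calc ∑ d1 ∈ s.prodPrimes.divisors with d1 ≤ z * z, ∑ d2 ∈ s.prodPrimes.divisors with d2 ≤ z * z,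
        (s.nu d1)⁻¹ * (s.nu d2)⁻¹ * |s.rem (d1.lcm d2)|
        ≤ ∑ d1 ∈ s.prodPrimes.divisors with d1 ≤ z * z,
          ∑ d2 ∈ s.prodPrimes.divisors with d2 ≤ z * z, (z:ℝ) ^ 8 := by
          apply Finset.sum_le_sum
          intro d1 hd1
          apply Finset.sum_le_sum
          intro d2 hd2
          rw [Finset.mem_filter, Nat.mem_divisors] at hd1 hd2
          have e1 : (s.nu d1)⁻¹ ≤ (z:ℝ) ^ 2 := by
            refine (hinv d1 (Nat.pos_of_ne_zero
              (squarefree_of_dvd_prodPrimes hd1.1.1).ne_zero)).trans ?_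
            have : (d1 : ℝ) ≤ ((z * z : ℕ) : ℝ) := by exact_mod_cast hd1.2
            calc (d1:ℝ) ≤ ((z * z : ℕ) : ℝ) := this
              _ = (z:ℝ) ^ 2 := by push_cast; ring
          have e2 : (s.nu d2)⁻¹ ≤ (z:ℝ) ^ 2 := by
            refine (hinv d2 (Nat.pos_of_ne_zero
              (squarefree_of_dvd_prodPrimes hd2.1.1).ne_zero)).trans ?_
            have : (d2 : ℝ) ≤ ((z * z : ℕ) : ℝ) := by exact_mod_cast hd2.2
            calc (d2:ℝ) ≤ ((z * z : ℕ) : ℝ) := this
              _ = (z:ℝ) ^ 2 := by push_cast; ring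
          have e3 : |s.rem (d1.lcm d2)| ≤ (z:ℝ) ^ 4 := by
            refine (sv_rem hMUL hCNT hRHO a N (z * z) ha _ (Nat.lcm_dvd hd1.1.1 hd2.1.1)).trans ?_
            have h0 : d1.lcm d2 ≤ d1 * d2 := by
              rw [Nat.lcm]
              exact Nat.div_le_self _ _
            have : ((d1.lcm d2 : ℕ) : ℝ) ≤ (((z * z) * (z * z) : ℕ) : ℝ) := by
              exact_mod_cast h0.trans (Nat.mul_le_mul hd1.2 hd2.2)
            calc ((d1.lcm d2 : ℕ) : ℝ) ≤ (((z * z) * (z * z) : ℕ) : ℝ) := this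
              _ = (z:ℝ) ^ 4 := by push_cast; ring
          have p2 : 0 ≤ (s.nu d2)⁻¹ := (inv_pos.mpr (nu_pos_of_dvd_prodPrimes hd2.1.1)).le
          calc (s.nu d1)⁻¹ * (s.nu d2)⁻¹ * |s.rem (d1.lcm d2)|
              ≤ (z:ℝ) ^ 2 * (z:ℝ) ^ 2 * (z:ℝ) ^ 4 := by gcongr
            _ = (z:ℝ) ^ 8 := by ring
      _ = ((s.prodPrimes.divisors.filter (fun d => d ≤ z * z)).card : ℝ) *
          ((s.prodPrimes.divisors.filter (fun d => d ≤ z * z)).card : ℝ) * (z:ℝ) ^ 8 := by
          rw [Finset.sum_const, Finset.sum_const]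
          simp only [nsmul_eq_mul]
          ring
      _ ≤ (z:ℝ) ^ 2 * (z:ℝ) ^ 2 * (z:ℝ) ^ 8 := by gcongr
      _ = (z:ℝ) ^ 12 := by ring

end Pool.Agent.H54.SR
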